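import Mathlib

/-!
No R-tree construction answers all aggregation queries on hypercubes with `O((N/B)^(1-1/d))` I/Os.
-/

set_option autoImplicit false

namespace Pool.Agent.Results.MP_4b5396_lc.NoSublinearAggregation

open Set

noncomputable section

/-- A closed axis-parallel box `[a,b]` in `ℝ^d`. -/
def IsBox {d : ℕ} (R : Set (Fin d → ℝ)) : Prop := ∃ a b : Fin d → ℝ, a ≤ b ∧ R = Icc a b

/-- A closed axis-parallel hypercube with corner `a` and side `s ≥ 0`. -/
def IsCube {d : ℕ} (R : Set (Fin d → ℝ)) : Prop :=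
  ∃ (a : Fin d → ℝ) (s : ℝ), 0 ≤ s ∧ R = Icc a (fun i => a i + s)

/-- The minimal axis-parallel bounding box of a set. -/
def boundingBox {d : ℕ} (A : Set (Fin d → ℝ)) : Set (Fin d → ℝ) := ⋂₀ {R | IsBox R ∧ A ⊆ R}

/-- An R-tree on `N` objects, for block size `B` and constants `0 < c₁ ≤ c₂` in the `Θ(B)`.
The tree has levels `0,...,height`; the nodes of a level are the parts of a partition of the
objects (a node is identified with its level and the set of objects in its subtree), and each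
level refines the previous one. The root is the only node of level `0`, the leaves are the nodes of
level `height`. -/
structure RTree (N B : ℕ) (c₁ c₂ : ℝ) where
  /-- the depth of the leaves -/
  height : ℕ
  /-- the nodes of a level -/
  level : ℕ → Finpartition (Finset.univ : Finset (Fin N))
  root : ∀ v ∈ (level 0).parts, v = Finset.univ
  refine : ∀ k, k < height → ∀ v ∈ (level (k + 1)).parts, ∃ u ∈ (level k).parts, v ⊆ u
  leaf_le : ∀ v ∈ (level height).parts, (v.card : ℝ) ≤ c₂ * B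
  leaf_ge : 0 < height → ∀ v ∈ (level height).parts, c₁ * B ≤ (v.card : ℝ)
  children_le : ∀ k, k < height → ∀ u ∈ (level k).parts,
    ((((level (k + 1)).parts.filter (fun v => v ⊆ u)).card : ℕ) : ℝ) ≤ c₂ * B
  children_ge : ∀ k, 0 < k → k < height → ∀ u ∈ (level k).parts,
    c₁ * B ≤ ((((level (k + 1)).parts.filter (fun v => v ⊆ u)).card : ℕ) : ℝ)

/-- The box `R(v)` of a node: the bounding box of the objects in its subtree. -/
def nodeBox {d N : ℕ} (o : Fin N → Set (Fin d → ℝ)) (v : Finset (Fin N)) : Set (Fin d → ℝ) :=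
  boundingBox (⋃ i ∈ v, o i)

/-- The node `v` of level `k` is visited by the query `Q`: every node `u` of levels `1,...,k` on
the path from the root to `v` (that is, containing `v`) has `R(u) ∩ Q ≠ ∅` and not `R(u) ⊆ Q`. -/
def Visited {d N B : ℕ} {c₁ c₂ : ℝ} (T : RTree N B c₁ c₂) (o : Fin N → Set (Fin d → ℝ))
    (Q : Set (Fin d → ℝ)) (k : ℕ) (v : Finset (Fin N)) : Prop :=
  ∀ j, 0 < j → j ≤ k → ∀ u ∈ (T.level j).parts, v ⊆ u →
    (nodeBox o u ∩ Q).Nonempty ∧ ¬ nodeBox o u ⊆ Q

open Classical in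
/-- The cost of the query: the number of visited nodes. -/
def cost {d N B : ℕ} {c₁ c₂ : ℝ} (T : RTree N B c₁ c₂) (o : Fin N → Set (Fin d → ℝ))
    (Q : Set (Fin d → ℝ)) : ℕ :=
  ∑ k ∈ Finset.range (T.height + 1), ((T.level k).parts.filter (fun v => Visited T o Q k v)).card

/-- the nested cubes -/
def obj (d N : ℕ) (i : Fin N) : Set (Fin d → ℝ) :=
  Icc (fun _ => -((i : ℝ) + 1)) (fun _ => (i : ℝ) + 1)

lemma obj_cube (d N : ℕ) (i : Fin N) : IsCube (obj d N i) := by
  refine ⟨fun _ => -((i : ℝ) + 1), 2 * ((i : ℝ) + 1), by positivity, ?_⟩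
  unfold obj
  congr 1
  funext j
  ring

lemma obj_inj (d N : ℕ) (hd : 0 < d) : Function.Injective (obj d N) := by
  intro i j h
  have h1 : (fun _ : Fin d => (i : ℝ) + 1) ∈ obj d N j := by
    rw [← h]
    exact ⟨fun _ => by simp only; have : (0 : ℝ) ≤ i := Nat.cast_nonneg _; linarith, le_refl _⟩
  have h2 : (fun _ : Fin d => (j : ℝ) + 1) ∈ obj d N i := by
    rw [h]
    exact ⟨fun _ => by simp only; have : (0 : ℝ) ≤ j := Nat.cast_nonneg _; linarith, le_refl _⟩
  have h3 := h1.2 ⟨0, hd⟩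
  have h4 := h2.2 ⟨0, hd⟩
  simp only at h3 h4
  have h5 : (i : ℝ) = (j : ℝ) := by linarith
  exact Fin.ext (by exact_mod_cast h5)

/-- For every dimension `d ≥ 2`, all constants `0 < c₁ ≤ c₂` in the `Θ(B)` and every `C`, once
`N / B` is large there is a set of `N` distinct hypercubes (with arbitrary weights, which do not
influence the traversal) such that every R-tree on it has an aggregation query of cost more than
`C (N/B)^(1-1/d)`. -/
theorem result (d : ℕ) (hd : 2 ≤ d) (c₁ c₂ : ℝ) (hc₁ : 0 < c₁) (hc : c₁ ≤ c₂) (C : ℝ) :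
    ∃ M : ℕ, ∀ B N : ℕ, 1 ≤ B → M * B ≤ N → ∃ o : Fin N → Set (Fin d → ℝ),
      (∀ i, IsCube (o i)) ∧ Function.Injective o ∧
      ∀ T : RTree N B c₁ c₂, ∃ Q : Set (Fin d → ℝ), IsBox Q ∧
        C * ((N : ℝ) / B) ^ (1 - 1 / (d : ℝ)) < (cost T o Q : ℝ) := by
  classical
  have hc₂ : 0 < c₂ := lt_of_lt_of_le hc₁ hc
  have hd0 : (0 : ℝ) < d := by exact_mod_cast (by omega : 0 < d)
  obtain ⟨M, hM⟩ := exists_nat_gt ((max 1 (|C| * c₂)) ^ (d : ℝ))
  refine ⟨M, fun B N hB hN => ⟨obj d N, obj_cube d N, obj_inj d N (by omega), fun T => ?_⟩⟩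
  have hB0 : (0 : ℝ) < B := by exact_mod_cast hB
  refine ⟨Icc (fun _ => -(1 / 2)) (fun _ => 1 / 2), ⟨_, _, fun _ => by norm_num, rfl⟩, ?_⟩
  set Q : Set (Fin d → ℝ) := Icc (fun _ => -(1 / 2)) (fun _ => 1 / 2) with hQ
  -- the box of every nonempty node strictly contains Q
  have hbox : ∀ u : Finset (Fin N), u.Nonempty → (nodeBox (obj d N) u ∩ Q).Nonempty ∧ ¬ nodeBox (obj d N) u ⊆ Q := by
    rintro u ⟨i, hi⟩
    have hi0 : (0 : ℝ) ≤ (i : ℝ) := Nat.cast_nonneg _
    have hsub : obj d N i ⊆ nodeBox (obj d N) u := by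
      unfold nodeBox boundingBox
      intro x hx
      rw [mem_sInter]
      rintro R ⟨_, hR⟩
      apply hR
      rw [mem_iUnion₂]
      exact ⟨i, hi, hx⟩
    constructor
    · refine ⟨fun _ => 0, hsub ⟨fun _ => ?_, fun _ => ?_⟩, ⟨fun _ => ?_, fun _ => ?_⟩⟩
      · simp only; linarith
      · simp only; linarith
      · norm_num
      · norm_num
    · intro hcon
      have h1 : (fun _ : Fin d => (1 : ℝ)) ∈ obj d N i := ⟨fun _ => by simp only; linarith, fun _ => by simp only; linarith⟩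
      have h2 := hcon (hsub h1)
      have h3 := h2.2 ⟨0, by omega⟩
      norm_num at h3
  have hvis : ∀ k, ∀ v ∈ (T.level k).parts, Visited T (obj d N) Q k v := by
    intro k v hv j _ _ u hu _
    exact hbox u ((T.level j).nonempty_of_mem_parts hu)
  -- number of leaves
  have hleaf : (N : ℝ) ≤ ((T.level T.height).parts.card : ℝ) * (c₂ * B) := by
    have h1 : ∑ v ∈ (T.level T.height).parts, v.card = N := by
      rw [(T.level T.height).sum_card_parts]; simp
    have h2 : (N : ℝ) = ∑ v ∈ (T.level T.height).parts, (v.card : ℝ) := by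
      have h3 := congrArg (Nat.cast : ℕ → ℝ) h1
      push_cast at h3
      exact h3.symm
    rw [h2]
    calc ∑ v ∈ (T.level T.height).parts, (v.card : ℝ) ≤ ∑ _v ∈ (T.level T.height).parts, (c₂ * B) :=
          Finset.sum_le_sum (fun v hv => T.leaf_le v hv)
      _ = _ := by rw [Finset.sum_const, nsmul_eq_mul]
  have hcost : ((T.level T.height).parts.card : ℝ) ≤ (cost T (obj d N) Q : ℝ) := by
    have h1 : (T.level T.height).parts.card ≤ cost T (obj d N) Q := by
      unfold cost
      have h2 : ((T.level T.height).parts.filter (fun v => Visited T (obj d N) Q T.height v)).card =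
          (T.level T.height).parts.card := by
        rw [Finset.filter_true_of_mem (fun v hv => hvis T.height v hv)]
      rw [← h2]
      exact Finset.single_le_sum (f := fun k => ((T.level k).parts.filter (fun v => Visited T (obj d N) Q k v)).card)
        (fun _ _ => Nat.zero_le _) (Finset.mem_range.mpr (Nat.lt_succ_self _))
    exact_mod_cast h1
  set x : ℝ := (N : ℝ) / B with hx
  have hMx : (M : ℝ) ≤ x := by
    rw [hx, le_div_iff₀ hB0]
    exact_mod_cast hN
  have h1le : (1 : ℝ) ≤ (max 1 (|C| * c₂)) ^ (d : ℝ) := Real.one_le_rpow (le_max_left _ _) hd0.le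
  have hx1 : (1 : ℝ) < x := lt_of_le_of_lt h1le (lt_of_lt_of_le hM hMx)
  have hx0 : 0 < x := by linarith
  have hkey : |C| * c₂ < x ^ (1 / (d : ℝ)) := by
    have h3 : (max 1 (|C| * c₂)) ^ (d : ℝ) < x := lt_of_lt_of_le hM hMx
    have h4 : ((max 1 (|C| * c₂)) ^ (d : ℝ)) ^ (1 / (d : ℝ)) < x ^ (1 / (d : ℝ)) :=
      Real.rpow_lt_rpow (by positivity) h3 (by positivity)
    rw [← Real.rpow_mul (by positivity), mul_one_div_cancel hd0.ne', Real.rpow_one] at h4
    exact lt_of_le_of_lt (le_max_right _ _) h4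
  have hsplit : x ^ (1 - 1 / (d : ℝ)) * x ^ (1 / (d : ℝ)) = x := by
    rw [← Real.rpow_add hx0, sub_add_cancel, Real.rpow_one]
  have hpos : 0 < x ^ (1 - 1 / (d : ℝ)) := Real.rpow_pos_of_pos hx0 _
  have hfin : |C| * x ^ (1 - 1 / (d : ℝ)) * c₂ < x := by
    calc |C| * x ^ (1 - 1 / (d : ℝ)) * c₂ = x ^ (1 - 1 / (d : ℝ)) * (|C| * c₂) := by ring
      _ < x ^ (1 - 1 / (d : ℝ)) * x ^ (1 / (d : ℝ)) := mul_lt_mul_of_pos_left hkey hpos
      _ = x := hsplit
  have hxN : x ≤ ((T.level T.height).parts.card : ℝ) * c₂ := by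
    rw [hx, div_le_iff₀ hB0]
    linarith
  have h5 : |C| * x ^ (1 - 1 / (d : ℝ)) < ((T.level T.height).parts.card : ℝ) := by
    have := lt_of_lt_of_le hfin hxN
    exact lt_of_mul_lt_mul_right this hc₂.le
  calc C * x ^ (1 - 1 / (d : ℝ)) ≤ |C| * x ^ (1 - 1 / (d : ℝ)) :=
        mul_le_mul_of_nonneg_right (le_abs_self C) hpos.le
    _ < _ := lt_of_lt_of_le h5 hcost

end

end Pool.Agent.Results.MP_4b5396_lc.NoSublinearAggregation
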